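import Pool.Agent.Results.MP_f259ea_nt.EveryShortInterval
import Pool.Agent.V11001.SI.Distinct

/-!
# Distinct zeros of Dirichlet L-functions in every short interval near the powers of almost every real number

Unconditionally, let `χ` be a primitive character modulo `q > 1`, `0 < η < 1`, `j ≥ 1`, `ε > 0` and `ν n / log n → ∞`, for
example `ν n = n`. There are `κ > 0` and a set `E` of Hausdorff dimension less than one such that for each `x > 1` outside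
`E` and all large `n`, `T = x ^ (ν n)`, EVERY interval `(a, b]` of length at least `T ^ η` in
`[T - T ^ (η + κ), T + T ^ (η + κ)]` satisfies
`N_d ≥ ((2 j + 1 - c((1 + η) / 2)) / (j (j + 1)) - ε) N + (excess multiplicity) / (j (j + 1))
  + (j² + 1) / (2 j (j + 1)) N_off`, in particular (`j = 2`) `N_d ≥ (17 / 36) N`. For arbitrary intervals of length `T ^ η`
this is known with `c(η)` only.
-/

set_option autoImplicit false

open Filter Topology Complex MeasureTheory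

namespace Pool.Agent.Results.MP_f259ea_nt.EveryIntervalNearPowers

open Pool.Agent.V11001.KM Pool.Agent.V11001.SI
open EveryShortInterval (N Nd Noff excess c Bound bound_of)

/-- `P a b` for every interval `(a, b]` of length at least `T ^ η` in `[T - T ^ (η + κ), T + T ^ (η + κ)]` -/
def Every (η κ T : ℝ) (P : ℝ → ℝ → Prop) : Prop :=
  ∀ a b : ℝ, T - T ^ (η + κ) ≤ a → b ≤ T + T ^ (η + κ) → T ^ η ≤ b - a → P a b

/-- **Theorem.** Let `χ` be a primitive character modulo `q > 1` and `0 < η < 1`. (1) For `j ≥ 1` and `ε > 0` there are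
`s < 1` and `κ > 0` such that for all `ν` with `ν n / log n → ∞` and all countable sets `U` there is a set `E` of Hausdorff
dimension at most `s` such that for each `x > 1` outside `E` and each positive `β` in `U` for all large `n`,
`T = β x ^ (ν n)`, every interval `(a, b]` of length at least `T ^ η` in `[T - T ^ (η + κ), T + T ^ (η + κ)]` satisfies
`Bound χ j ((1 + η) / 2) ε a b`. (2) The same for the inequality `N_d ≥ (17 / 36) N`. -/
theorem result : ∀ (q : ℕ) [NeZero q], 1 < q → ∀ χ : DirichletCharacter ℂ q, χ.IsPrimitive → ∀ η : ℝ, 0 < η → η < 1 →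
    (∀ (j : ℕ) (ε : ℝ), 1 ≤ j → 0 < ε →
      ∃ s κ : ℝ, s < 1 ∧ 0 < κ ∧ ∀ ν : ℕ → ℝ, Fast ν → ∀ U : Set ℝ, U.Countable →
        ∃ E : Set ℝ, dimH E ≤ ENNReal.ofReal s ∧ ∀ x : ℝ, 1 < x → x ∉ E → ∀ β ∈ U, 0 < β →
          ∃ n₀ : ℕ, ∀ n : ℕ, n₀ ≤ n → Every η κ (β * x ^ ν n) (fun a b => Bound χ j ((1 + η) / 2) ε a b)) ∧
    (∃ s κ : ℝ, s < 1 ∧ 0 < κ ∧ ∀ ν : ℕ → ℝ, Fast ν → ∀ U : Set ℝ, U.Countable →
        ∃ E : Set ℝ, dimH E ≤ ENNReal.ofReal s ∧ ∀ x : ℝ, 1 < x → x ∉ E → ∀ β ∈ U, 0 < β →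
          ∃ n₀ : ℕ, ∀ n : ℕ, n₀ ≤ n →
            Every η κ (β * x ^ ν n) (fun a b => 17 / 36 * (N χ a b : ℝ) ≤ (Nd χ a b : ℝ))) := by
  intro q _ hq χ hχ η h0 h1
  have hg : H370.GoodL (DirichletCharacter.LFunction χ) := H370.good_dirichlet χ hχ
  have hχ1 : χ ≠ 1 := by
    rintro rfl
    have h1 : (1 : DirichletCharacter ℂ q).conductor = q := hχ
    rw [DirichletCharacter.conductor_one] at h1
    omega
  have part1 : ∀ (j : ℕ) (ε : ℝ), 1 ≤ j → 0 < ε →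
      ∃ s κ : ℝ, s < 1 ∧ 0 < κ ∧ ∀ ν : ℕ → ℝ, Fast ν → ∀ U : Set ℝ, U.Countable →
        ∃ E : Set ℝ, dimH E ≤ ENNReal.ofReal s ∧ ∀ x : ℝ, 1 < x → x ∉ E → ∀ β ∈ U, 0 < β →
          ∃ n₀ : ℕ, ∀ n : ℕ, n₀ ≤ n → Every η κ (β * x ^ ν n) (fun a b => Bound χ j ((1 + η) / 2) ε a b) := by
    intro j ε hj hε
    obtain ⟨s, κ, -, hs1, hκ, -, h⟩ := distinct hg (Pool.Agent.TH822.AA.bz_d χ hχ hχ1) j hj h0 h1 hε
    refine ⟨s, κ, hs1, hκ, fun ν hν U hU => ?_⟩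
    obtain ⟨E, hE1, hE2⟩ := h ν hν U hU
    refine ⟨E, hE1, fun x hx hxE β hβ hβ0 => ?_⟩
    obtain ⟨n₀, hn₀⟩ := hE2 x hx hxE β hβ hβ0
    exact ⟨n₀, fun n hn a b ha hb hab => bound_of χ hj hε (hn₀ n hn a b ha hb hab)⟩
  refine ⟨part1, ?_⟩
  have hx : c ((1 + η) / 2) ≤ 1 / ((1 + η) / 2) + (1 + η) / 2 / 3 := H295SI.cc_le _ (by linarith) (by linarith)
  have hx1 : 1 / ((1 + η) / 2) + (1 + η) / 2 / 3 < 13 / 6 := by
    have e : 1 / ((1 + η) / 2) = 2 / (1 + η) := by field_simp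
    rw [e, ← lt_sub_iff_add_lt, div_lt_iff₀ (by linarith)]
    nlinarith
  obtain ⟨s, κ, hs1, hκ, h⟩ := part1 2 ((13 / 6 - c ((1 + η) / 2)) / 6) (by norm_num) (by linarith)
  refine ⟨s, κ, hs1, hκ, fun ν hν U hU => ?_⟩
  obtain ⟨E, hE1, hE2⟩ := h ν hν U hU
  refine ⟨E, hE1, fun x hx hxE β hβ hβ0 => ?_⟩
  obtain ⟨n₀, hn₀⟩ := hE2 x hx hxE β hβ hβ0
  refine ⟨n₀, fun n hn a b ha hb hab => ?_⟩
  have hb' : Bound χ 2 ((1 + η) / 2) ((13 / 6 - c ((1 + η) / 2)) / 6) a b := hn₀ n hn a b ha hb hab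
  unfold Bound at hb'
  have e1 : (0 : ℝ) ≤ (excess χ 2 a b : ℝ) / (((2 : ℕ) : ℝ) * (((2 : ℕ) : ℝ) + 1)) := by positivity
  have e2 : (0 : ℝ) ≤ (((2 : ℕ) : ℝ) ^ 2 + 1) / (2 * ((2 : ℕ) : ℝ) * (((2 : ℕ) : ℝ) + 1)) * (Noff χ a b : ℝ) := by
    positivity
  have e : ((2 * ((2 : ℕ) : ℝ) + 1 - c ((1 + η) / 2)) / (((2 : ℕ) : ℝ) * (((2 : ℕ) : ℝ) + 1)) -
      (13 / 6 - c ((1 + η) / 2)) / 6) = 17 / 36 := by
    push_cast
    ring
  rw [e] at hb'
  show 17 / 36 * (N χ a b : ℝ) ≤ (Nd χ a b : ℝ)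
  linarith

end Pool.Agent.Results.MP_f259ea_nt.EveryIntervalNearPowers
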