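import Pool.Agent.Y762.FinJ

/-!
# Distinct zeros of Dirichlet L-functions, uniformly in the conductor

For `0 < h ≤ 1` and every primitive Dirichlet character `χ` modulo `q` we bound from below the number
of distinct zeros of `L(s, χ)` with `T < Im s ≤ 2T`, in the range `T ≥ C`, `(q T)^h ≤ T`, that is
`T ≥ q ^ (h / (1 - h))`; the constant `C` does not depend on `χ` and `q`.  So the height may be an
arbitrarily small power of the conductor, and the proportion of distinct zeros is at least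
`3 h / (3 + h²) - ε`, and `(2 j + 1 - c(h)) / (j (j + 1)) - ε` for every integer `j ≥ 1`, where
`c(h) = h/2 + cot(h/√2)/√2`.

Proof: `Pool/Agent/Y762/FinJ.lean` (library of the starting files): trace inequality for the zeros with
general multiplicities, explicit formula uniform in `q`, and the mean square of the prime sums up to
the length `T^(1-ε)`, compared with the number `T log (q T) / 2π` of zeros.
-/

set_option autoImplicit false

namespace Pool.Agent.Results.MP_f259ea_nt.UniformInConductor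

/-- the nontrivial zeros of `L(s, χ)` with ordinate in `(T₁, T₂]` -/
def zeros {q : ℕ} [NeZero q] (χ : DirichletCharacter ℂ q) (T₁ T₂ : ℝ) : Set ℂ :=
  {s : ℂ | DirichletCharacter.LFunction χ s = 0 ∧ 0 < s.re ∧ s.re < 1 ∧ T₁ < s.im ∧ s.im ≤ T₂}

/-- the number of nontrivial zeros with ordinate in `(T₁, T₂]`, counted with multiplicity -/
noncomputable def N {q : ℕ} [NeZero q] (χ : DirichletCharacter ℂ q) (T₁ T₂ : ℝ) : ℕ :=
  ∑ᶠ s ∈ zeros χ T₁ T₂, analyticOrderNatAt (DirichletCharacter.LFunction χ) s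

/-- the number of distinct zeros with ordinate in `(T₁, T₂]` -/
noncomputable def Nd {q : ℕ} [NeZero q] (χ : DirichletCharacter ℂ q) (T₁ T₂ : ℝ) : ℕ :=
  (zeros χ T₁ T₂).ncard

/-- the constant `c(h) = h/2 + cot(h/√2)/√2`; `c(1) = c_MT⁻¹ = 1.3274...` -/
noncomputable def c (h : ℝ) : ℝ := h / 2 + Real.cot (h / Real.sqrt 2) / Real.sqrt 2

lemma sin_sub_nonneg {x : ℝ} (h0 : 0 ≤ x) (h1 : x ≤ 1) : x * Real.cos x ≤ Real.sin x := by
  rcases h0.eq_or_lt with rfl | h0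
  · simp
  have hpi := Real.pi_gt_three
  have h2 := Real.lt_tan h0 (by linarith)
  have hc : 0 < Real.cos x := Real.cos_pos_of_mem_Ioo ⟨by linarith, by linarith⟩
  rw [Real.tan_eq_sin_div_cos, lt_div_iff₀ hc] at h2
  exact h2.le

lemma cot_aux {x : ℝ} (h0 : 0 ≤ x) (h1 : x ≤ 1) :
    x * Real.cos x ≤ (1 - x ^ 2 / 3) * Real.sin x := by
  have hmono : MonotoneOn (fun x : ℝ => (1 - x ^ 2 / 3) * Real.sin x - x * Real.cos x)
      (Set.Icc 0 1) := by
    have hd : ∀ x : ℝ, HasDerivAt (fun x : ℝ => (1 - x ^ 2 / 3) * Real.sin x - x * Real.cos x)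
        (x / 3 * (Real.sin x - x * Real.cos x)) x := by
      intro x
      have h1 : HasDerivAt (fun x : ℝ => 1 - x ^ 2 / 3) (-(2 * x / 3)) x := by
        have := ((hasDerivAt_id x).fun_pow 2).div_const 3
        have h2 := this.const_sub 1
        refine h2.congr_deriv ?_
        simp
      have h3 := (h1.mul (Real.hasDerivAt_sin x)).sub ((hasDerivAt_id x).mul (Real.hasDerivAt_cos x))
      refine h3.congr_deriv ?_
      simp only [id]
      ring
    apply monotoneOn_of_deriv_nonneg (convex_Icc 0 1)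
    · exact fun x _ => (hd x).continuousAt.continuousWithinAt
    · exact fun x _ => (hd x).differentiableAt.differentiableWithinAt
    · intro x hx
      rw [interior_Icc] at hx
      rw [(hd x).deriv]
      have := sin_sub_nonneg hx.1.le hx.2.le
      have h3 := hx.1
      apply mul_nonneg (by linarith) (by linarith)
  have h2 := hmono (show (0 : ℝ) ∈ Set.Icc (0 : ℝ) 1 by simp) (show x ∈ Set.Icc (0 : ℝ) 1 from ⟨h0, h1⟩) h0
  simp only at h2
  norm_num at h2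
  linarith

/-- `c(h) ≤ 1/h + h/3` -/
theorem cc_le (h : ℝ) (h0 : 0 < h) (h1 : h ≤ 1) : c h ≤ 1 / h + h / 3 := by
  have hs : (0 : ℝ) < Real.sqrt 2 := by positivity
  have hs2 : Real.sqrt 2 ^ 2 = 2 := Real.sq_sqrt (by norm_num)
  have hs1 : 1 < Real.sqrt 2 := Real.one_lt_sqrt_two
  set x := h / Real.sqrt 2 with hx
  have hx0 : 0 < x := by positivity
  have hx1 : x ≤ 1 := by
    rw [hx, div_le_one hs]; linarith
  have hpi := Real.pi_gt_three
  have hsin : 0 < Real.sin x := Real.sin_pos_of_pos_of_lt_pi hx0 (by linarith)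
  have h2 := cot_aux hx0.le hx1
  have h3 : Real.cot x ≤ (1 - x ^ 2 / 3) / x := by
    rw [Real.cot_eq_cos_div_sin, div_le_div_iff₀ hsin hx0]
    linarith
  unfold c
  rw [← hx]
  have h4 : Real.cot x / Real.sqrt 2 ≤ (1 - x ^ 2 / 3) / x / Real.sqrt 2 :=
    div_le_div_of_nonneg_right h3 hs.le
  have h5 : (1 - x ^ 2 / 3) / x / Real.sqrt 2 = 1 / h - h / 6 := by
    rw [hx, div_pow, hs2]
    field_simp
    ring
  linarith

/-- the chord of `1 / x` lies above the function -/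
lemma chord (x : ℝ) (hx : 1 ≤ x) : ∃ j : ℕ, 1 ≤ j ∧ 1 / x ≤ (2 * j + 1 - x) / (j * (j + 1)) := by
  have hx0 : 0 ≤ x := by linarith
  refine ⟨⌊x⌋₊, (Nat.one_le_floor_iff x).mpr hx, ?_⟩
  have h1 : ((⌊x⌋₊ : ℕ) : ℝ) ≤ x := Nat.floor_le hx0
  have h2 : x < (⌊x⌋₊ : ℕ) + 1 := Nat.lt_floor_add_one x
  have h3 : 1 ≤ ((⌊x⌋₊ : ℕ) : ℝ) := by exact_mod_cast (Nat.one_le_floor_iff x).mpr hx
  set a : ℝ := ((⌊x⌋₊ : ℕ) : ℝ) with ha
  rw [div_le_div_iff₀ (by linarith) (by positivity)]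
  nlinarith [mul_nonneg (sub_nonneg.mpr h1) (sub_nonneg.mpr h2.le)]

theorem zeros_eq {q : ℕ} [NeZero q] (χ : DirichletCharacter ℂ q) (T₁ T₂ : ℝ) :
    zeros χ T₁ T₂ = H370.zset (DirichletCharacter.LFunction χ) T₁ T₂ := by
  ext s
  simp only [zeros, H370.zset, Set.mem_ofPred_eq]
  tauto

theorem N_eq {q : ℕ} [NeZero q] (χ : DirichletCharacter ℂ q) (T₁ T₂ : ℝ) :
    N χ T₁ T₂ = H370.NN (DirichletCharacter.LFunction χ) T₁ T₂ := by
  unfold N H370.NN H370.mult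
  rw [zeros_eq]

theorem Nd_eq {q : ℕ} [NeZero q] (χ : DirichletCharacter ℂ q) (T₁ T₂ : ℝ) :
    Nd χ T₁ T₂ = H370.Nd (DirichletCharacter.LFunction χ) T₁ T₂ := by
  unfold Nd H370.Nd
  rw [zeros_eq]

lemma part1 (j : ℕ) (hj : 1 ≤ j) (h ε : ℝ) (h0 : 0 < h) (h1 : h ≤ 1) (hε : 0 < ε) :
    ∃ C : ℝ, 1 ≤ C ∧ ∀ (q : ℕ) [NeZero q] (χ : DirichletCharacter ℂ q) (T : ℝ),
      χ.IsPrimitive → C ≤ T → (q * T) ^ h ≤ T →
        (1 - ε) * (T / (2 * Real.pi) * Real.log (q * T)) ≤ (N χ T (2 * T) : ℝ) ∧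
        ((2 * j + 1 - c h) / (j * (j + 1)) - ε) * (N χ T (2 * T) : ℝ) ≤ (Nd χ T (2 * T) : ℝ) := by
  obtain ⟨C, hC, H⟩ := Y762.single_j j hj h ε h0 h1 hε
  refine ⟨C, hC, fun q _ χ T hχ hT hqT => ?_⟩
  obtain ⟨a1, a2⟩ := H q χ T hχ hT hqT
  rw [← N_eq, ← Nd_eq] at a1
  rw [← N_eq] at a2
  refine ⟨a2, ?_⟩
  have hj1 : (1 : ℝ) ≤ j := by exact_mod_cast hj
  have hjj : 0 < (j : ℝ) * (j + 1) := by positivity
  have hc : Y762.cH h = c h := rfl
  rw [hc] at a1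
  refine le_of_mul_le_mul_left ?_ hjj
  refine le_trans (le_of_eq ?_) (le_trans (sub_le_self _ ?_) a1) (b := (2 * j + 1 - (c h + ε)) *
    (N χ T (2 * T) : ℝ) - ε * ((j : ℝ) * (j + 1) - 1) * (N χ T (2 * T) : ℝ))
  · field_simp
    ring
  · have : 0 ≤ (j : ℝ) * (j + 1) - 1 := by nlinarith
    positivity

/-- **The theorem**, uniformly in the conductor `q`. -/
theorem result (h ε : ℝ) (h0 : 0 < h) (h1 : h ≤ 1) (hε : 0 < ε) :
    -- the proportion `3 h / (3 + h²)`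
    (∃ C : ℝ, 1 ≤ C ∧ ∀ (q : ℕ) [NeZero q] (χ : DirichletCharacter ℂ q) (T : ℝ),
      χ.IsPrimitive → C ≤ T → (q * T) ^ h ≤ T →
        (1 - ε) * (T / (2 * Real.pi) * Real.log (q * T)) ≤ (N χ T (2 * T) : ℝ) ∧
        (3 * h / (3 + h ^ 2) - ε) * (N χ T (2 * T) : ℝ) ≤ (Nd χ T (2 * T) : ℝ)) ∧
    -- the bounds with an integer `j`
    ∀ j : ℕ, 1 ≤ j → ∃ C : ℝ, 1 ≤ C ∧ ∀ (q : ℕ) [NeZero q] (χ : DirichletCharacter ℂ q) (T : ℝ),
      χ.IsPrimitive → C ≤ T → (q * T) ^ h ≤ T →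
        ((2 * j + 1 - c h) / (j * (j + 1)) - ε) * (N χ T (2 * T) : ℝ) ≤ (Nd χ T (2 * T) : ℝ) := by
  refine ⟨?_, ?_⟩
  · have hx : c h ≤ 1 / h + h / 3 := cc_le h h0 h1
    have hx1 : 1 ≤ 1 / h + h / 3 := by
      have : 1 ≤ 1 / h := by rw [le_div_iff₀ h0]; linarith
      have : 0 ≤ h / 3 := by positivity
      linarith
    obtain ⟨j, hj, hjc⟩ := chord (1 / h + h / 3) hx1
    obtain ⟨C, hC, H⟩ := part1 j hj h ε h0 h1 hε
    refine ⟨C, hC, fun q _ χ T hχ hT hqT => ?_⟩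
    obtain ⟨a1, a2⟩ := H q χ T hχ hT hqT
    refine ⟨a1, le_trans ?_ a2⟩
    refine mul_le_mul_of_nonneg_right ?_ (Nat.cast_nonneg _)
    have hj1 : (1 : ℝ) ≤ j := by exact_mod_cast hj
    have e1 : 3 * h / (3 + h ^ 2) = 1 / (1 / h + h / 3) := by
      field_simp
    have e2 : (2 * j + 1 - (1 / h + h / 3)) / ((j : ℝ) * (j + 1)) ≤
        (2 * j + 1 - c h) / (j * (j + 1)) :=
      div_le_div_of_nonneg_right (by linarith) (by positivity)
    rw [e1]
    linarith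
  · intro j hj
    obtain ⟨C, hC, H⟩ := part1 j hj h ε h0 h1 hε
    exact ⟨C, hC, fun q _ χ T hχ hT hqT => (H q χ T hχ hT hqT).2⟩

end Pool.Agent.Results.MP_f259ea_nt.UniformInConductor
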